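import Mathlib

set_option autoImplicit false

namespace Pool.Agent.Helper69.CN

/-- a tree in which every leaf has at most `K` branchings, with at most `B + 1` children -/
theorem tree {ι : Type*} [DecidableEq ι] (f : ι → ℕ → ℤ) (B : ℕ) (K : ℕ) :
    ∀ (T : Finset ι) (N0 : ℕ),
      (∀ i ∈ T, ∀ j ∈ T, i ≠ j → ∃ n, f i n ≠ f j n) →
      (∀ i ∈ T, ∀ j ∈ T, ∀ n, N0 ≤ n → (∀ m < n, f i m = f j m) → |f i n - f j n| ≤ B) →
      (∀ i ∈ T, ∀ F : Finset ℕ,
        (∀ n ∈ F, N0 ≤ n ∧ ∃ j ∈ T, (∀ m < n, f i m = f j m) ∧ f i n ≠ f j n) → F.card ≤ K) →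
      (∀ i ∈ T, ∀ j ∈ T, ∀ m < N0, f i m = f j m) →
      T.card ≤ (B + 1) ^ K := by
  classical
  induction K with
  | zero =>
    intro T N0 h1 h2 h3 h4
    rw [pow_zero]
    by_contra hcon
    push Not at hcon
    obtain ⟨i, hi, j, hj, hij⟩ := Finset.one_lt_card.1 hcon
    have hex : ∃ n, f i n ≠ f j n := h1 i hi j hj hij
    have hn := Nat.find_spec hex
    have hmin : ∀ m < Nat.find hex, f i m = f j m := by
      intro m hm
      by_contra h
      exact Nat.find_min hex hm h
    have hN : N0 ≤ Nat.find hex := by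
      by_contra h
      exact hn (h4 i hi j hj _ (by omega))
    have := h3 i hi {Nat.find hex} (by
      intro n hn'
      rw [Finset.mem_singleton] at hn'
      subst hn'
      exact ⟨hN, j, hj, hmin, hn⟩)
    simp at this
  | succ K ih =>
    intro T N0 h1 h2 h3 h4
    by_cases hT : T.card ≤ 1
    · exact le_trans hT (Nat.one_le_pow _ _ (by omega))
    push Not at hT
    obtain ⟨i0, hi0, j0, hj0, hij0⟩ := Finset.one_lt_card.1 hT
    have hex : ∃ n, ∃ i ∈ T, ∃ j ∈ T, f i n ≠ f j n := by
      obtain ⟨n, hn⟩ := h1 i0 hi0 j0 hj0 hij0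
      exact ⟨n, i0, hi0, j0, hj0, hn⟩
    set n := Nat.find hex with hndef
    obtain ⟨i, hi, j, hj, hij⟩ := Nat.find_spec hex
    have hmin : ∀ m < n, ∀ a ∈ T, ∀ b ∈ T, f a m = f b m := by
      intro m hm a ha b hb
      by_contra h
      exact Nat.find_min hex hm ⟨a, ha, b, hb, h⟩
    have hN : N0 ≤ n := by
      by_contra h
      exact hij (h4 i hi j hj _ (by omega))
    have hcls : ∀ v ∈ T.image (fun a => f a n), (T.filter (fun a => f a n = v)).card ≤ (B + 1) ^ K := by
      intro v hv
      apply ih _ (n + 1)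
      · intro a ha b hb hab
        exact h1 a (Finset.mem_filter.1 ha).1 b (Finset.mem_filter.1 hb).1 hab
      · intro a ha b hb m hm
        exact h2 a (Finset.mem_filter.1 ha).1 b (Finset.mem_filter.1 hb).1 m (by omega)
      · intro a ha F hF
        have ha' := (Finset.mem_filter.1 ha)
        have hnF : n ∉ F := by
          intro hmem
          have := (hF n hmem).1
          omega
        have hne : ∃ b ∈ T, f a n ≠ f b n := by
          by_contra hcon
          push Not at hcon
          exact hij (by rw [← hcon i hi, ← hcon j hj])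
        obtain ⟨b, hb, hab⟩ := hne
        have := h3 a ha'.1 (insert n F) (by
          intro m hm
          rcases Finset.mem_insert.1 hm with rfl | hm
          · exact ⟨hN, b, hb, fun k hk => hmin k hk a ha'.1 b hb, hab⟩
          · obtain ⟨g1, c, hc, g2, g3⟩ := hF m hm
            exact ⟨by omega, c, (Finset.mem_filter.1 hc).1, g2, g3⟩)
        rw [Finset.card_insert_of_notMem hnF] at this
        omega
      · intro a ha b hb m hm
        have ha' := (Finset.mem_filter.1 ha)
        have hb' := (Finset.mem_filter.1 hb)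
        rcases Nat.lt_succ_iff_lt_or_eq.1 hm with h | h
        · exact hmin m h a ha'.1 b hb'.1
        · subst h; rw [ha'.2, hb'.2]
    have himg : (T.image (fun a => f a n)).card ≤ B + 1 := by
      have hne : (T.image (fun a => f a n)).Nonempty := ⟨f i n, Finset.mem_image_of_mem _ hi⟩
      set w := (T.image (fun a => f a n)).min' hne with hw
      have hwmem := Finset.min'_mem _ hne
      obtain ⟨a0, ha0, hfa0⟩ := Finset.mem_image.1 hwmem
      have hsub : T.image (fun a => f a n) ⊆ Finset.Icc w (w + B) := by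
        intro v hv
        have hwv : w ≤ v := Finset.min'_le _ _ hv
        obtain ⟨a, ha, hfa⟩ := Finset.mem_image.1 hv
        have := h2 a ha a0 ha0 n hN (fun m hm => hmin m hm a ha a0 ha0)
        rw [abs_le] at this
        have e1 : f a n = v := hfa
        have e2 : f a0 n = w := hfa0
        rw [e1, e2] at this
        rw [Finset.mem_Icc]
        constructor <;> omega
      calc (T.image (fun a => f a n)).card ≤ (Finset.Icc w (w + B)).card := Finset.card_le_card hsub
        _ = B + 1 := by rw [Int.card_Icc]; omega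
    calc T.card = ∑ v ∈ T.image (fun a => f a n), (T.filter (fun a => f a n = v)).card :=
          Finset.card_eq_sum_card_image _ _
      _ ≤ ∑ v ∈ T.image (fun a => f a n), (B + 1) ^ K := Finset.sum_le_sum hcls
      _ = (T.image (fun a => f a n)).card * (B + 1) ^ K := by rw [Finset.sum_const, smul_eq_mul]
      _ ≤ (B + 1) * (B + 1) ^ K := Nat.mul_le_mul_right _ himg
      _ = (B + 1) ^ (K + 1) := by ring

/-- a sequence bounded in an interval of length `L` has few strict lows with gap `g` -/
theorem lows (x : ℕ → ℝ) (c L g : ℝ) (hg : 0 < g) (hc : ∀ n, 1 ≤ n → c ≤ x n ∧ x n ≤ c + L)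
    (F : Finset ℕ) (hF : ∀ n ∈ F, 1 ≤ n ∧ ∀ m, 1 ≤ m → m < n → x n ≤ x m - g) :
    (F.card : ℝ) ≤ L / g + 1 := by
  have key : ∀ (k : ℕ) (F : Finset ℕ), F.card = k + 1 →
      (∀ n ∈ F, 1 ≤ n ∧ ∀ m, 1 ≤ m → m < n → x n ≤ x m - g) →
      ∃ n ∈ F, (∀ m ∈ F, m ≤ n) ∧ x n ≤ c + L - k * g := by
    intro k
    induction k with
    | zero =>
      intro F hk hF
      obtain ⟨a, rfl⟩ := Finset.card_eq_one.1 hk
      refine ⟨a, Finset.mem_singleton_self a, ?_, ?_⟩
      · intro m hm; rw [Finset.mem_singleton] at hm; exact hm.le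
      · have := (hc a (hF a (Finset.mem_singleton_self a)).1).2
        simpa using this
    | succ k ih =>
      intro F hk hF
      have hne : F.Nonempty := Finset.card_pos.1 (by omega)
      set M := F.max' hne with hM
      have hMm : M ∈ F := Finset.max'_mem _ _
      obtain ⟨n, hn, hn1, hn2⟩ := ih (F.erase M) (by rw [Finset.card_erase_of_mem hMm]; omega)
        (fun a ha => hF a (Finset.mem_of_mem_erase ha))
      refine ⟨M, hMm, fun m hm => Finset.le_max' _ _ hm, ?_⟩
      have hnM : n < M := lt_of_le_of_ne (Finset.le_max' _ _ (Finset.mem_of_mem_erase hn))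
        (Finset.ne_of_mem_erase hn)
      have := (hF M hMm).2 n (hF n (Finset.mem_of_mem_erase hn)).1 hnM
      push_cast
      linarith
  rcases Nat.eq_zero_or_pos F.card with h | h
  · rw [h]
    have hL : 0 ≤ L := by
      have := hc 1 le_rfl
      linarith
    have : 0 ≤ L / g := div_nonneg hL hg.le
    push_cast
    linarith
  · obtain ⟨k, hk⟩ : ∃ k, F.card = k + 1 := ⟨F.card - 1, by omega⟩
    obtain ⟨n, hn, -, hn2⟩ := key k F hk hF
    have h1 := (hc n (hF n hn).1).1
    rw [hk]
    push_cast
    have : (k : ℝ) ≤ L / g := by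
      rw [le_div_iff₀ hg]; linarith
    linarith

end Pool.Agent.Helper69.CN
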