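import Pool.Agent.Helper69.CN.Split
import Pool.Agent.Helper69.CN.Tree

set_option autoImplicit false

namespace Pool.Agent.Helper69.CN

theorem sepv {α β : ℝ} (h1 : 1 ≤ α) (h : α < β) : ∃ n : ℕ, ⌊α ^ n⌋ ≠ ⌊β ^ n⌋ := by
  obtain ⟨k, hk⟩ := exists_nat_gt (1 / (β - α))
  have hd : 0 < β - α := by linarith
  have hk0 : (0 : ℝ) < k := lt_trans (by positivity) hk
  refine ⟨k, ?_⟩
  have hb := bern α β (by linarith) h.le k
  have hkd : 1 < (k : ℝ) * (β - α) := by
    rw [div_lt_iff₀ hd] at hk; linarith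
  have hα0 : 0 < α := by linarith
  have hk1 : 1 ≤ k := by
    have : 0 < k := by exact_mod_cast hk0
    omega
  obtain ⟨j, rfl⟩ : ∃ j, k = j + 1 := ⟨k - 1, by omega⟩
  have h2 : ((j + 1 : ℕ) : ℝ) * (β - α) * α ^ j ≤ β ^ (j + 1) - α ^ (j + 1) := by
    rw [pow_succ α j] at hb
    have : α * (((j + 1 : ℕ) : ℝ) * (β - α) * α ^ j) ≤ α * (β ^ (j + 1) - α ^ j * α) := by
      calc α * (((j + 1 : ℕ) : ℝ) * (β - α) * α ^ j) = ((j + 1 : ℕ) : ℝ) * (β - α) * (α ^ j * α) := by ring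
        _ ≤ _ := hb
    rw [pow_succ α j]
    exact le_of_mul_le_mul_left this hα0
  have h3 : 1 ≤ α ^ j := one_le_pow₀ h1
  have h4 : 1 < β ^ (j + 1) - α ^ (j + 1) := by nlinarith
  intro heq
  have h5 := Int.floor_le (α ^ (j + 1))
  have h6 := Int.lt_floor_add_one (β ^ (j + 1))
  rw [← heq] at h6
  linarith

theorem sepv' {α β : ℝ} (h1 : 1 ≤ α) (h2 : 1 ≤ β) (h : α ≠ β) : ∃ n : ℕ, ⌊α ^ n⌋ ≠ ⌊β ^ n⌋ := by
  rcases lt_or_gt_of_ne h with h | h
  · exact sepv h1 h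
  · obtain ⟨n, hn⟩ := sepv h2 h
    exact ⟨n, hn.symm⟩

noncomputable def KK (ε : ℝ) : ℕ := (⌈8 / (1 - ε)⌉₊ + 1) + 2 * (⌈2 * ε / (1 - ε)⌉₊ + 1)

theorem class_bound {ε : ℝ} (he0 : 0 < ε) (he1 : ε < 1) (T : Finset ℝ)
    (hT : ∀ α ∈ T, 40 / (1 - ε) ≤ α ∧ Conf ε α)
    (h12 : ∀ α ∈ T, ∀ β ∈ T, ⌊α⌋ = ⌊β⌋ ∧ ⌊α ^ 2⌋ = ⌊β ^ 2⌋) :
    T.card ≤ 9 ^ KK ε := by
  classical
  have hg : 0 < 1 - ε := by linarith
  have h40 : ∀ α ∈ T, 40 ≤ α := by
    intro α hα
    have : (40 : ℝ) ≤ 40 / (1 - ε) := by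
      rw [le_div_iff₀ hg]; linarith
    linarith [(hT α hα).1]
  refine tree (fun (α : ℝ) (n : ℕ) => ⌊α ^ n⌋) 8 (KK ε) T 3 ?_ ?_ ?_ ?_
  · intro α hα β hβ hne
    exact sepv' (by linarith [h40 α hα]) (by linarith [h40 β hβ]) hne
  · intro α hα β hβ n hn hag
    obtain ⟨N, rfl⟩ : ∃ N, n = N + 1 := ⟨n - 1, by omega⟩
    rcases lt_trichotomy α β with h | h | h
    · have := child he0 he1 (hT α hα).1 h (hT α hα).2 (hT β hβ).2 (N := N) (by omega)
        (fun m h1 h2 => hag m (by omega))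
      show |⌊α ^ (N + 1)⌋ - ⌊β ^ (N + 1)⌋| ≤ ((8 : ℕ) : ℤ)
      rw [abs_sub_comm]
      exact_mod_cast this
    · subst h
      simp
    · have := child he0 he1 (hT β hβ).1 h (hT β hβ).2 (hT α hα).2 (N := N) (by omega)
        (fun m h1 h2 => (hag m (by omega)).symm)
      show |⌊α ^ (N + 1)⌋ - ⌊β ^ (N + 1)⌋| ≤ ((8 : ℕ) : ℤ)
      exact_mod_cast this
  · intro α hα F hF
    have hα0 : 0 < α := by linarith [h40 α hα]
    obtain ⟨c, hc⟩ := (hT α hα).2
    set N1 := ⌈8 / (1 - ε)⌉₊ with hN1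
    set F1 := F.filter (fun n => n ≤ N1) with hF1
    set F2 := F.filter (fun n => ¬ n ≤ N1 ∧ ∃ β ∈ T, α < β ∧ (∀ m < n, ⌊α ^ m⌋ = ⌊β ^ m⌋) ∧ ⌊α ^ n⌋ ≠ ⌊β ^ n⌋) with hF2
    set F3 := F.filter (fun n => ¬ n ≤ N1 ∧ ∃ β ∈ T, β < α ∧ (∀ m < n, ⌊β ^ m⌋ = ⌊α ^ m⌋) ∧ ⌊β ^ n⌋ ≠ ⌊α ^ n⌋) with hF3
    have hcov : F ⊆ F1 ∪ F2 ∪ F3 := by
      intro n hn
      obtain ⟨h3, β, hβ, hag, hne⟩ := hF n hn
      have hne' : α ≠ β := by
        intro h; subst h; exact hne rfl
      by_cases h : n ≤ N1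
      · simp only [Finset.mem_union, hF1, Finset.mem_filter]
        left; left; exact ⟨hn, h⟩
      · rcases lt_or_gt_of_ne hne' with hlt | hgt
        · simp only [Finset.mem_union, hF2, Finset.mem_filter]
          left; right; exact ⟨hn, h, β, hβ, hlt, hag, hne⟩
        · simp only [Finset.mem_union, hF3, Finset.mem_filter]
          right; exact ⟨hn, h, β, hβ, hgt, fun m hm => (hag m hm).symm, fun h' => hne h'.symm⟩
    have c1 : F1.card ≤ N1 + 1 := by
      have : F1 ⊆ Finset.range (N1 + 1) := by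
        intro n hn
        simp only [hF1, Finset.mem_filter] at hn
        exact Finset.mem_range.2 (by omega)
      simpa using Finset.card_le_card this
    have hval : ε / α / ((1 - ε) / (2 * α)) = 2 * ε / (1 - ε) := by
      field_simp
    have hNle : 8 / (1 - ε) ≤ (N1 : ℝ) := Nat.le_ceil _
    have c2 : F2.card ≤ ⌈2 * ε / (1 - ε)⌉₊ + 1 := by
      have h := lows (fun n => Int.fract (α ^ n)) c (ε / α) ((1 - ε) / (2 * α)) (by positivity)
        (fun n hn => hc n hn) (F2.image (fun n => n - 1)) (by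
          intro k hk
          obtain ⟨n, hn, rfl⟩ := Finset.mem_image.1 hk
          simp only [hF2, Finset.mem_filter] at hn
          obtain ⟨hnF, hn1, β, hβ, hlt, hag, hne⟩ := hn
          have h3 := (hF n hnF).1
          obtain ⟨N, rfl⟩ : ∃ N, n = N + 1 := ⟨n - 1, by omega⟩
          have hN : 8 / (1 - ε) ≤ (N : ℝ) := by
            have : N1 ≤ N := by omega
            have : (N1 : ℝ) ≤ (N : ℝ) := by exact_mod_cast this
            linarith
          refine ⟨by omega, ?_⟩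
          intro m hm1 hm2
          have hs := split he0 he1 (hT α hα).1 hlt (hT α hα).2 (hT β hβ).2 hN
            (fun m h1 h2 => hag m (by omega)) hne m hm1 (by simpa using hm2)
          simpa using hs.1)
      rw [hval, Finset.card_image_of_injOn] at h
      · have h' : (F2.card : ℝ) ≤ ((⌈2 * ε / (1 - ε)⌉₊ + 1 : ℕ) : ℝ) := by
          push_cast
          linarith [Nat.le_ceil (2 * ε / (1 - ε))]
        exact_mod_cast h'
      · intro a ha b hb hab
        have h1 := (hF a (Finset.mem_filter.1 (Finset.mem_coe.1 ha)).1).1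
        have h2 := (hF b (Finset.mem_filter.1 (Finset.mem_coe.1 hb)).1).1
        simp only at hab
        omega
    have c3 : F3.card ≤ ⌈2 * ε / (1 - ε)⌉₊ + 1 := by
      have h := lows (fun n => - Int.fract (α ^ n)) (-(c + ε / α)) (ε / α) ((1 - ε) / (2 * α)) (by positivity)
        (fun n hn => by
          have := hc n hn
          constructor
          · linarith [this.2]
          · linarith [this.1]) (F3.image (fun n => n - 1)) (by
          intro k hk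
          obtain ⟨n, hn, rfl⟩ := Finset.mem_image.1 hk
          simp only [hF3, Finset.mem_filter] at hn
          obtain ⟨hnF, hn1, β, hβ, hlt, hag, hne⟩ := hn
          have h3 := (hF n hnF).1
          obtain ⟨N, rfl⟩ : ∃ N, n = N + 1 := ⟨n - 1, by omega⟩
          have hN : 8 / (1 - ε) ≤ (N : ℝ) := by
            have : N1 ≤ N := by omega
            have : (N1 : ℝ) ≤ (N : ℝ) := by exact_mod_cast this
            linarith
          refine ⟨by omega, ?_⟩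
          intro m hm1 hm2
          have hs := split he0 he1 (hT β hβ).1 hlt (hT β hβ).2 (hT α hα).2 hN
            (fun m h1 h2 => hag m (by omega)) hne m hm1 (by simpa using hm2)
          have := hs.2
          simp only [Nat.add_sub_cancel]
          linarith)
      rw [hval, Finset.card_image_of_injOn] at h
      · have h' : (F3.card : ℝ) ≤ ((⌈2 * ε / (1 - ε)⌉₊ + 1 : ℕ) : ℝ) := by
          push_cast
          linarith [Nat.le_ceil (2 * ε / (1 - ε))]
        exact_mod_cast h'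
      · intro a ha b hb hab
        have h1 := (hF a (Finset.mem_filter.1 (Finset.mem_coe.1 ha)).1).1
        have h2 := (hF b (Finset.mem_filter.1 (Finset.mem_coe.1 hb)).1).1
        simp only at hab
        omega
    calc F.card ≤ (F1 ∪ F2 ∪ F3).card := Finset.card_le_card hcov
      _ ≤ (F1 ∪ F2).card + F3.card := Finset.card_union_le _ _
      _ ≤ F1.card + F2.card + F3.card := Nat.add_le_add_right (Finset.card_union_le _ _) _
      _ ≤ KK ε := by
        unfold KK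
        omega
  · intro α hα β hβ m hm
    obtain ⟨e1, e2⟩ := h12 α hα β hβ
    interval_cases m
    · simp
    · simpa using e1
    · exact e2

theorem finset_bound {ε : ℝ} (he0 : 0 < ε) (he1 : ε < 1) (x : ℝ) (hx : 40 / (1 - ε) ≤ x)
    (T : Finset ℝ) (hT : ∀ α ∈ T, (x ≤ α ∧ α < x + 1) ∧ Conf ε α) :
    (T.card : ℝ) ≤ 6 * 9 ^ KK ε * x := by
  classical
  have hg : 0 < 1 - ε := by linarith
  have hx40 : 40 ≤ x := by
    have : (40 : ℝ) ≤ 40 / (1 - ε) := by
      rw [le_div_iff₀ hg]; linarith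
    linarith
  set φ : ℝ → ℤ × ℤ := fun α => (⌊α⌋, ⌊α ^ 2⌋) with hφ
  set R : Finset (ℤ × ℤ) := Finset.Icc ⌊x⌋ (⌊x⌋ + 1) ×ˢ Finset.Icc ⌊x ^ 2⌋ ⌊(x + 1) ^ 2⌋ with hR
  have himg : T.image φ ⊆ R := by
    intro v hv
    obtain ⟨α, hα, rfl⟩ := Finset.mem_image.1 hv
    obtain ⟨⟨h1, h2⟩, -⟩ := hT α hα
    rw [hR, Finset.mem_product, Finset.mem_Icc, Finset.mem_Icc]
    refine ⟨⟨Int.floor_mono h1, ?_⟩, Int.floor_mono ?_, Int.floor_mono ?_⟩
    · show ⌊α⌋ ≤ ⌊x⌋ + 1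
      rw [← Int.floor_add_one]
      exact Int.floor_mono h2.le
    · exact pow_le_pow_left₀ (by linarith) h1 2
    · exact pow_le_pow_left₀ (by linarith) h2.le 2
  have hRc : (R.card : ℝ) ≤ 6 * x := by
    rw [hR, Finset.card_product, Int.card_Icc, Int.card_Icc]
    have e1 : (⌊x⌋ + 1 + 1 - ⌊x⌋).toNat = 2 := by
      have : ⌊x⌋ + 1 + 1 - ⌊x⌋ = 2 := by ring
      rw [this]; rfl
    have e2 : ((⌊(x + 1) ^ 2⌋ + 1 - ⌊x ^ 2⌋).toNat : ℝ) ≤ 2 * x + 3 := by
      have h0 : 0 ≤ ⌊(x + 1) ^ 2⌋ + 1 - ⌊x ^ 2⌋ := by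
        have : ⌊x ^ 2⌋ ≤ ⌊(x + 1) ^ 2⌋ := Int.floor_mono (pow_le_pow_left₀ (by linarith) (by linarith) 2)
        omega
      have h1 : ((⌊(x + 1) ^ 2⌋ + 1 - ⌊x ^ 2⌋).toNat : ℝ) = ((⌊(x + 1) ^ 2⌋ + 1 - ⌊x ^ 2⌋ : ℤ) : ℝ) := by
        have := Int.toNat_of_nonneg h0
        exact_mod_cast congrArg (Int.cast : ℤ → ℝ) this
      rw [h1]
      push_cast
      have h2 := Int.floor_le ((x + 1) ^ 2)
      have h3 := Int.lt_floor_add_one (x ^ 2)
      nlinarith
    rw [e1]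
    push_cast
    nlinarith
  have hsum : T.card = ∑ v ∈ T.image φ, (T.filter (fun a => φ a = v)).card :=
    Finset.card_eq_sum_card_image _ _
  have hle : T.card ≤ (T.image φ).card * 9 ^ KK ε := by
    rw [hsum, ← smul_eq_mul, ← Finset.sum_const]
    apply Finset.sum_le_sum
    intro v _
    apply class_bound he0 he1
    · intro α hα
      have hα' := Finset.mem_filter.1 hα
      obtain ⟨⟨h1, h2⟩, h3⟩ := hT α hα'.1
      exact ⟨by linarith, h3⟩
    · intro α hα β hβ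
      have e1 := (Finset.mem_filter.1 hα).2
      have e2 := (Finset.mem_filter.1 hβ).2
      have e3 : φ α = φ β := by rw [e1, e2]
      simp only [hφ, Prod.mk.injEq] at e3
      exact e3
  have hle2 : (T.card : ℝ) ≤ ((T.image φ).card : ℝ) * 9 ^ KK ε := by exact_mod_cast hle
  have hle3 : ((T.image φ).card : ℝ) ≤ 6 * x := le_trans (by exact_mod_cast Finset.card_le_card himg) hRc
  calc (T.card : ℝ) ≤ ((T.image φ).card : ℝ) * 9 ^ KK ε := hle2
    _ ≤ (6 * x) * 9 ^ KK ε := mul_le_mul_of_nonneg_right hle3 (by positivity)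
    _ = 6 * 9 ^ KK ε * x := by ring

/-- for `ε < 1` there are at most `C x` confined numbers in `[x, x+1)` -/
theorem count {ε : ℝ} (he0 : 0 < ε) (he1 : ε < 1) :
    ∃ M C : ℝ, 0 < C ∧ ∀ x : ℝ, M ≤ x →
      Set.Finite {α : ℝ | (x ≤ α ∧ α < x + 1) ∧ Conf ε α} ∧
      (Set.ncard {α : ℝ | (x ≤ α ∧ α < x + 1) ∧ Conf ε α} : ℝ) ≤ C * x := by
  refine ⟨40 / (1 - ε), 6 * 9 ^ KK ε, by positivity, ?_⟩
  intro x hx
  have hfin : Set.Finite {α : ℝ | (x ≤ α ∧ α < x + 1) ∧ Conf ε α} := by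
    by_contra hinf
    obtain ⟨k, hk⟩ := exists_nat_gt (6 * 9 ^ KK ε * x)
    obtain ⟨T, hT1, hT2⟩ := Set.Infinite.exists_subset_card_eq hinf k
    have := finset_bound he0 he1 x hx T (fun α hα => hT1 (Finset.mem_coe.2 hα))
    rw [hT2] at this
    linarith
  refine ⟨hfin, ?_⟩
  rw [Set.ncard_eq_toFinset_card _ hfin]
  apply finset_bound he0 he1 x hx
  intro α hα
  exact (Set.Finite.mem_toFinset hfin).1 hα

end Pool.Agent.Helper69.CN
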