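import Pool.Agent.Helper69.CN.Count

set_option autoImplicit false

namespace Pool.Agent.Helper69.CN

theorem finset_bound_c {ε : ℝ} (he0 : 0 < ε) (he1 : ε < 1) (x : ℝ) (hx : 40 / (1 - ε) ≤ x) (c : ℝ)
    (T : Finset ℝ) (hT : ∀ α ∈ T, (x ≤ α ∧ α < x + 1) ∧
      ∀ n : ℕ, 1 ≤ n → c ≤ Int.fract (α ^ n) ∧ Int.fract (α ^ n) ≤ c + ε / α) :
    T.card ≤ 8 * 9 ^ KK ε := by
  classical
  have hg : 0 < 1 - ε := by linarith
  have hx40 : 40 ≤ x := by
    have : (40 : ℝ) ≤ 40 / (1 - ε) := by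
      rw [le_div_iff₀ hg]; linarith
    linarith
  set φ : ℝ → ℤ × ℤ := fun α => (⌊α⌋, ⌊α ^ 2⌋) with hφ
  set R : Finset (ℤ × ℤ) := (Finset.Icc ⌊x⌋ (⌊x⌋ + 1)).biUnion
    (fun k => (Finset.Icc ⌊((k : ℝ) + c) ^ 2⌋ (⌊((k : ℝ) + c) ^ 2⌋ + 3)).image (fun v => (k, v))) with hR
  have himg : T.image φ ⊆ R := by
    intro v hv
    obtain ⟨α, hα, rfl⟩ := Finset.mem_image.1 hv
    obtain ⟨⟨h1, h2⟩, h3⟩ := hT α hα
    have h4 := h3 1 le_rfl
    rw [pow_one] at h4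
    have h5 := Int.floor_add_fract α
    have h6 := Int.fract_nonneg α
    have hα0 : 0 < α := by linarith
    have h7 : ε / α ≤ 1 / 40 := by
      rw [div_le_div_iff₀ hα0 (by norm_num)]
      nlinarith
    have h7' : ε / α * α = ε := by field_simp
    have h7'' : 0 ≤ ε / α := by positivity
    rw [hR, Finset.mem_biUnion]
    refine ⟨⌊α⌋, ?_, ?_⟩
    · rw [Finset.mem_Icc]
      refine ⟨Int.floor_mono h1, ?_⟩
      rw [← Int.floor_add_one]
      exact Int.floor_mono h2.le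
    · rw [Finset.mem_image]
      refine ⟨⌊α ^ 2⌋, ?_, rfl⟩
      have g1 : ((⌊α⌋ : ℤ) : ℝ) + c ≤ α := by linarith [h4.1]
      have g2 : α ≤ ((⌊α⌋ : ℤ) : ℝ) + c + ε / α := by linarith [h4.2]
      have g3 : 0 ≤ ((⌊α⌋ : ℤ) : ℝ) + c := by linarith
      rw [Finset.mem_Icc]
      constructor
      · exact Int.floor_mono (pow_le_pow_left₀ g3 g1 2)
      · have g4 : α ^ 2 ≤ (((⌊α⌋ : ℤ) : ℝ) + c) ^ 2 + 2 := by nlinarith
        have g5 := Int.floor_le (α ^ 2)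
        have g6 := Int.lt_floor_add_one ((((⌊α⌋ : ℤ) : ℝ) + c) ^ 2)
        have g7 : ((⌊α ^ 2⌋ : ℤ) : ℝ) < ((⌊(((⌊α⌋ : ℤ) : ℝ) + c) ^ 2⌋ + 3 : ℤ) : ℝ) := by
          push_cast; linarith
        exact (Int.cast_lt.1 g7).le
  have hRc : R.card ≤ 8 := by
    have : R.card ≤ (Finset.Icc ⌊x⌋ (⌊x⌋ + 1)).card * 4 := by
      apply Finset.card_biUnion_le_card_mul
      intro k _
      refine le_trans Finset.card_image_le ?_
      rw [Int.card_Icc]
      have : ⌊((k : ℝ) + c) ^ 2⌋ + 3 + 1 - ⌊((k : ℝ) + c) ^ 2⌋ = 4 := by ring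
      rw [this]; rfl
    have e1 : (Finset.Icc ⌊x⌋ (⌊x⌋ + 1)).card = 2 := by
      rw [Int.card_Icc]
      have : ⌊x⌋ + 1 + 1 - ⌊x⌋ = 2 := by ring
      rw [this]; rfl
    omega
  have hsum : T.card = ∑ v ∈ T.image φ, (T.filter (fun a => φ a = v)).card :=
    Finset.card_eq_sum_card_image _ _
  have hle : T.card ≤ (T.image φ).card * 9 ^ KK ε := by
    rw [hsum, ← smul_eq_mul, ← Finset.sum_const]
    apply Finset.sum_le_sum
    intro v _
    apply class_bound he0 he1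
    · intro α hα
      have hα' := Finset.mem_filter.1 hα
      obtain ⟨⟨h1, h2⟩, h3⟩ := hT α hα'.1
      exact ⟨by linarith, c, h3⟩
    · intro α hα β hβ
      have e1 := (Finset.mem_filter.1 hα).2
      have e2 := (Finset.mem_filter.1 hβ).2
      have e3 : φ α = φ β := by rw [e1, e2]
      simp only [hφ, Prod.mk.injEq] at e3
      exact e3
  calc T.card ≤ (T.image φ).card * 9 ^ KK ε := hle
    _ ≤ 8 * 9 ^ KK ε := Nat.mul_le_mul_right _ (le_trans (Finset.card_le_card himg) hRc)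

end Pool.Agent.Helper69.CN
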