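import Mathlib

set_option autoImplicit false

namespace Pool.Agent.Helper69.CN

structure Good (x c δ : ℝ) (n : ℕ) (p : ℝ × ℝ) : Prop where
  lo : x ≤ p.1
  le : p.1 ≤ p.2
  hi : p.2 ≤ x + 2
  ex : ∃ u : ℤ, p.1 ^ n = u + c ∧ p.2 ^ n = u + c + δ

theorem step {x c δ : ℝ} (hx : 1 ≤ x) (hδ : 0 ≤ δ) (hL : 1 + δ ≤ x * δ) (n : ℕ)
    (p : ℝ × ℝ) (hp : Good x c δ n p) :
    ∃ q : ℝ × ℝ, Good x c δ (n + 1) q ∧ p.1 ≤ q.1 ∧ q.2 ≤ p.2 := by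
  obtain ⟨h1, h2, h3, u, h4, h5⟩ := hp
  set a := p.1
  set b := p.2
  have ha0 : 0 ≤ a := by linarith
  have hb0 : 0 ≤ b := by linarith
  have hlen : a ^ (n + 1) + 1 + δ ≤ b ^ (n + 1) := by
    have e1 : b ^ (n + 1) - a ^ (n + 1) = a * (b ^ n - a ^ n) + (b - a) * b ^ n := by ring
    have e2 : b ^ n - a ^ n = δ := by rw [h4, h5]; ring
    have e3 : 0 ≤ (b - a) * b ^ n := mul_nonneg (by linarith) (pow_nonneg hb0 n)
    have e4 : x * δ ≤ a * δ := mul_le_mul_of_nonneg_right h1 hδ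
    rw [e2] at e1
    linarith
  set v : ℤ := ⌈a ^ (n + 1) - c⌉ with hv
  have v1 : a ^ (n + 1) - c ≤ v := Int.le_ceil _
  have v2 : (v : ℝ) < a ^ (n + 1) - c + 1 := Int.ceil_lt_add_one _
  have hcont : Continuous (fun t : ℝ => t ^ (n + 1)) := continuous_pow _
  obtain ⟨a', ⟨ha1, ha2⟩, ha3⟩ := intermediate_value_Icc h2 hcont.continuousOn
    (show (v : ℝ) + c ∈ Set.Icc (a ^ (n + 1)) (b ^ (n + 1)) from ⟨by linarith, by linarith⟩)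
  have ha3' : a' ^ (n + 1) = v + c := ha3
  obtain ⟨b', ⟨hb1, hb2⟩, hb3⟩ := intermediate_value_Icc ha2 hcont.continuousOn
    (show (v : ℝ) + c + δ ∈ Set.Icc (a' ^ (n + 1)) (b ^ (n + 1)) from ⟨by linarith, by linarith⟩)
  have hb3' : b' ^ (n + 1) = v + c + δ := hb3
  exact ⟨(a', b'), ⟨le_trans h1 ha1, hb1, le_trans hb2 h3, v, ha3', hb3'⟩, ha1, hb2⟩

theorem nest {x c δ : ℝ} (hx : 1 ≤ x) (hδ : 0 ≤ δ) (hδ1 : δ ≤ 1) (hL : 1 + δ ≤ x * δ)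
    (hc0 : 0 ≤ c) (hc1 : c + δ < 1) :
    ∃ α : ℝ, x ≤ α ∧ α ≤ x + 2 ∧ ∀ n : ℕ, 1 ≤ n →
      c ≤ Int.fract (α ^ n) ∧ Int.fract (α ^ n) ≤ c + δ := by
  classical
  have h0 : ∃ p : ℝ × ℝ, Good x c δ 1 p := by
    set v : ℤ := ⌈x - c⌉ with hv
    have v1 : x - c ≤ v := Int.le_ceil _
    have v2 : (v : ℝ) < x - c + 1 := Int.ceil_lt_add_one _
    refine ⟨((v : ℝ) + c, (v : ℝ) + c + δ), ⟨?_, ?_, ?_, v, ?_, ?_⟩⟩
    · show x ≤ (v : ℝ) + c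
      linarith
    · show (v : ℝ) + c ≤ (v : ℝ) + c + δ
      linarith
    · show (v : ℝ) + c + δ ≤ x + 2
      linarith
    · simp
    · simp
  obtain ⟨p0, hp0⟩ := h0
  let nxt : (n : ℕ) → {p : ℝ × ℝ // Good x c δ (n + 1) p} → {p : ℝ × ℝ // Good x c δ (n + 1 + 1) p} :=
    fun n p => ⟨(step hx hδ hL (n + 1) p.1 p.2).choose, (step hx hδ hL (n + 1) p.1 p.2).choose_spec.1⟩
  let s : (n : ℕ) → {p : ℝ × ℝ // Good x c δ (n + 1) p} := fun n =>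
    Nat.rec (motive := fun n => {p : ℝ × ℝ // Good x c δ (n + 1) p}) ⟨p0, hp0⟩ nxt n
  have hs : ∀ n, (s n).1.1 ≤ (s (n + 1)).1.1 ∧ (s (n + 1)).1.2 ≤ (s n).1.2 := by
    intro n
    exact (step hx hδ hL (n + 1) (s n).1 (s n).2).choose_spec.2
  have hne : (⋂ n, Set.Icc (s n).1.1 (s n).1.2).Nonempty := by
    apply IsCompact.nonempty_iInter_of_sequence_nonempty_isCompact_isClosed
    · intro n
      exact Set.Icc_subset_Icc (hs n).1 (hs n).2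
    · intro n
      exact Set.nonempty_Icc.2 (s n).2.le
    · exact isCompact_Icc
    · intro n
      exact isClosed_Icc
  obtain ⟨α, hα⟩ := hne
  rw [Set.mem_iInter] at hα
  have hαx : x ≤ α := le_trans (s 0).2.lo (hα 0).1
  have hαx2 : α ≤ x + 2 := le_trans (hα 0).2 (s 0).2.hi
  refine ⟨α, hαx, hαx2, ?_⟩
  intro n hn
  obtain ⟨k, rfl⟩ : ∃ k, n = k + 1 := ⟨n - 1, by omega⟩
  obtain ⟨u, h1, h2⟩ := (s k).2.ex
  have hp1 : x ≤ (s k).1.1 := (s k).2.lo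
  have h3 : (s k).1.1 ^ (k + 1) ≤ α ^ (k + 1) := pow_le_pow_left₀ (by linarith) (hα k).1 _
  have h4 : α ^ (k + 1) ≤ (s k).1.2 ^ (k + 1) := pow_le_pow_left₀ (by linarith) (hα k).2 _
  have h5 : Int.fract (α ^ (k + 1)) = α ^ (k + 1) - u := by
    rw [Int.fract_eq_iff]
    refine ⟨by linarith, by linarith, u, by ring⟩
  rw [h5]
  constructor <;> linarith

end Pool.Agent.Helper69.CN
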