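import Mathlib

set_option autoImplicit false

namespace Pool.Agent.Helper69.CN

open IntermediateField

/-- Pisot numbers, written as in the frozen statement -/
def IsPisot (α : ℝ) : Prop :=
  IsIntegral ℤ α ∧ 1 < α ∧ ∀ z : ℂ, z ≠ (α : ℂ) → Polynomial.aeval z (minpoly ℤ α) = 0 → ‖z‖ < 1

theorem pisot_near {α : ℝ} (h : IsPisot α) {a : ℝ} (ha : 0 < a) :
    ∃ n : ℕ, 1 ≤ n ∧ ∃ t : ℤ, |α ^ n - t| < a := by
  classical
  obtain ⟨hint, h1, hconj⟩ := h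
  have hintQ : IsIntegral ℚ α := hint.tower_top
  have : FiniteDimensional ℚ ℚ⟮α⟯ := adjoin.finiteDimensional hintQ
  set θ : ℚ⟮α⟯ := AdjoinSimple.gen ℚ α with hθ
  have hθα : algebraMap ℚ⟮α⟯ ℝ θ = α := AdjoinSimple.algebraMap_gen ℚ α
  have hθint : IsIntegral ℤ θ := by
    rw [← isIntegral_algebraMap_iff (algebraMap ℚ⟮α⟯ ℝ).injective, hθα]
    exact hint
  have haeval : Polynomial.aeval θ (minpoly ℤ α) = 0 := by
    apply (algebraMap ℚ⟮α⟯ ℝ).injective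
    rw [map_zero, ← Polynomial.aeval_algebraMap_apply, hθα]
    exact minpoly.aeval ℤ α
  let σ0 : ℚ⟮α⟯ →ₐ[ℚ] ℂ := (Complex.ofRealAm.restrictScalars ℚ).comp (IsScalarTower.toAlgHom ℚ ℚ⟮α⟯ ℝ)
  have hσ0 : σ0 θ = (α : ℂ) := by
    show ((algebraMap ℚ⟮α⟯ ℝ θ : ℝ) : ℂ) = (α : ℂ)
    rw [hθα]
  have hσ : ∀ σ : ℚ⟮α⟯ →ₐ[ℚ] ℂ, σ ≠ σ0 → ‖σ θ‖ < 1 := by
    intro σ hne
    apply hconj
    · intro heq
      apply hne
      apply (adjoin.powerBasis hintQ).algHom_ext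
      rw [adjoin.powerBasis_gen]
      exact heq.trans hσ0.symm
    · have := congrArg (fun y => σ y) haeval
      simp only [map_zero] at this
      rw [← this]
      exact Polynomial.aeval_algHom_apply (σ.restrictScalars ℤ) θ (minpoly ℤ α)
  have htr : ∀ n : ℕ, ∃ t : ℤ, (t : ℂ) = ∑ σ : ℚ⟮α⟯ →ₐ[ℚ] ℂ, (σ θ) ^ n := by
    intro n
    have hi : IsIntegral ℤ (Algebra.trace ℚ ℚ⟮α⟯ (θ ^ n)) := Algebra.isIntegral_trace (hθint.pow n)
    obtain ⟨t, ht⟩ := IsIntegrallyClosed.isIntegral_iff.1 hi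
    refine ⟨t, ?_⟩
    have := trace_eq_sum_embeddings (K := ℚ) (L := ℚ⟮α⟯) ℂ (x := θ ^ n)
    rw [← ht] at this
    simp only [map_pow] at this
    rw [← this]
    simp
  have hlim : Filter.Tendsto (fun n : ℕ => ∑ σ ∈ Finset.univ.erase σ0, ‖σ θ‖ ^ n) Filter.atTop (nhds 0) := by
    have : (0 : ℝ) = ∑ σ ∈ Finset.univ.erase σ0, (0 : ℝ) := by simp
    rw [this]
    apply tendsto_finsetSum
    intro σ hs
    exact tendsto_pow_atTop_nhds_zero_of_lt_one (norm_nonneg _) (hσ σ (Finset.ne_of_mem_erase hs))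
  have hev := (hlim.eventually (gt_mem_nhds ha)).and (Filter.eventually_ge_atTop 1)
  obtain ⟨n, hn1, hn2⟩ := hev.exists
  refine ⟨n, hn2, ?_⟩
  obtain ⟨t, ht⟩ := htr n
  refine ⟨t, ?_⟩
  have e1 : (t : ℂ) = (α : ℂ) ^ n + ∑ σ ∈ Finset.univ.erase σ0, (σ θ) ^ n := by
    rw [ht, ← Finset.add_sum_erase _ _ (Finset.mem_univ σ0), hσ0]
  have e2 : ((α ^ n - t : ℝ) : ℂ) = - ∑ σ ∈ Finset.univ.erase σ0, (σ θ) ^ n := by
    push_cast
    rw [e1]; ring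
  have e3 : |α ^ n - (t : ℝ)| = ‖((α ^ n - t : ℝ) : ℂ)‖ := by
    rw [Complex.norm_real, Real.norm_eq_abs]
  rw [e3, e2, norm_neg]
  calc ‖∑ σ ∈ Finset.univ.erase σ0, (σ θ) ^ n‖ ≤ ∑ σ ∈ Finset.univ.erase σ0, ‖(σ θ) ^ n‖ := norm_sum_le _ _
    _ = ∑ σ ∈ Finset.univ.erase σ0, ‖σ θ‖ ^ n := by simp
    _ < a := hn1

theorem pisot_far {α : ℝ} (h : IsPisot α) {a : ℝ} (ha : 0 < a) :
    ∃ n : ℕ, 1 ≤ n ∧ (Int.fract (α ^ n) < a ∨ 1 - a < Int.fract (α ^ n)) := by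
  obtain ⟨n, hn, t, ht⟩ := pisot_near h (a := min a 1) (by positivity)
  refine ⟨n, hn, ?_⟩
  rw [abs_lt] at ht
  have m1 : min a 1 ≤ a := min_le_left _ _
  have m2 : min a 1 ≤ 1 := min_le_right _ _
  rcases le_or_gt (t : ℝ) (α ^ n) with hle | hlt
  · left
    have : Int.fract (α ^ n) = α ^ n - t := by
      rw [Int.fract_eq_iff]
      exact ⟨by linarith, by linarith, t, by ring⟩
    rw [this]; linarith
  · right
    have : Int.fract (α ^ n) = α ^ n - (t - 1) := by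
      rw [Int.fract_eq_iff]
      exact ⟨by linarith, by linarith, t - 1, by push_cast; ring⟩
    rw [this]; linarith

end Pool.Agent.Helper69.CN
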