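import Mathlib

set_option autoImplicit false

namespace Pool.Agent.Helper69.CN

def Conf (ε α : ℝ) : Prop :=
  ∃ c : ℝ, ∀ n : ℕ, 1 ≤ n → c ≤ Int.fract (α ^ n) ∧ Int.fract (α ^ n) ≤ c + ε / α

theorem conf_diff {ε α : ℝ} (h : Conf ε α) {m n : ℕ} (hm : 1 ≤ m) (hn : 1 ≤ n) :
    Int.fract (α ^ m) ≤ Int.fract (α ^ n) + ε / α := by
  obtain ⟨c, hc⟩ := h
  have h1 := hc m hm
  have h2 := hc n hn
  linarith

theorem bern (α β : ℝ) (h0 : 0 ≤ α) (h : α ≤ β) (N : ℕ) :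
    (N : ℝ) * (β - α) * α ^ N ≤ α * (β ^ N - α ^ N) := by
  induction N with
  | zero => simp
  | succ N ih =>
    have h1 : α ^ N ≤ β ^ N := pow_le_pow_left₀ h0 h N
    have h2 : 0 ≤ α * (β - α) * (β ^ N - α ^ N) :=
      mul_nonneg (mul_nonneg h0 (by linarith)) (by linarith)
    have h3 : α * ((N : ℝ) * (β - α) * α ^ N) ≤ α * (α * (β ^ N - α ^ N)) :=
      mul_le_mul_of_nonneg_left ih h0
    push_cast
    rw [pow_succ, pow_succ]
    nlinarith

theorem d_step (α β : ℝ) (h0 : 0 ≤ α) (h : α ≤ β) (N : ℕ) :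
    α * (β ^ N - α ^ N) ≤ β ^ (N + 1) - α ^ (N + 1) := by
  have h1 : 0 ≤ β ^ N := pow_nonneg (le_trans h0 h) N
  rw [pow_succ, pow_succ]
  nlinarith [mul_nonneg (sub_nonneg.2 h) h1]

theorem d_mono (α β : ℝ) (h0 : 1 ≤ α) (h : α ≤ β) {m n : ℕ} (hmn : m ≤ n) :
    β ^ m - α ^ m ≤ β ^ n - α ^ n := by
  induction n, hmn using Nat.le_induction with
  | base => exact le_rfl
  | succ n _ ih =>
    have h1 := d_step α β (by linarith) h n
    have h2 : α ^ n ≤ β ^ n := pow_le_pow_left₀ (by linarith) h n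
    nlinarith

/-- the basic estimates for two confined numbers which agree on the levels `≤ N` -/
theorem basic {ε α β : ℝ} (he0 : 0 < ε) (he1 : ε < 1) (hα : 40 / (1 - ε) ≤ α) (hab : α < β)
    (ca : Conf ε α) (cb : Conf ε β) {N : ℕ} (hN : 2 ≤ N)
    (hag : ∀ m, 1 ≤ m → m ≤ N → ⌊α ^ m⌋ = ⌊β ^ m⌋) :
    (∀ m, 1 ≤ m → m ≤ N → β ^ m - α ^ m = Int.fract (β ^ m) - Int.fract (α ^ m)) ∧
    β ^ N - α ^ N ≤ 4 * ε / α ∧
    (∀ m, 1 ≤ m → m < N → β ^ m - α ^ m ≤ 4 * ε / α ^ 2) ∧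
    β ^ (N + 1) - α ^ (N + 1) ≤ (α + 1) * (1 + 1 / (N : ℝ)) * (β ^ N - α ^ N) := by
  have hg : 0 < 1 - ε := by linarith
  have hα40 : 40 ≤ α := by
    have : (40 : ℝ) ≤ 40 / (1 - ε) := by
      rw [le_div_iff₀ hg]; linarith
    linarith
  have hα0 : 0 < α := by linarith
  have F1 : ∀ m, 1 ≤ m → m ≤ N → β ^ m - α ^ m = Int.fract (β ^ m) - Int.fract (α ^ m) := by
    intro m h1 h2
    have := hag m h1 h2
    rw [Int.fract, Int.fract, this]; ring
  have hβ : ε / β ≤ ε / α := by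
    apply div_le_div_of_nonneg_left he0.le hα0 hab.le
  obtain ⟨K, rfl⟩ : ∃ K, N = K + 1 := ⟨N - 1, by omega⟩
  have hK : 1 ≤ K := by omega
  have F3 : (β ^ (K + 1) - α ^ (K + 1)) - (β ^ K - α ^ K) ≤ 2 * (ε / α) := by
    rw [F1 (K + 1) (by omega) le_rfl, F1 K hK (by omega)]
    have h1 := conf_diff cb (m := K + 1) (n := K) (by omega) hK
    have h2 := conf_diff ca (m := K) (n := K + 1) hK (by omega)
    linarith
  have F3' := d_step α β hα0.le hab.le K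
  have hdK : 0 ≤ β ^ K - α ^ K := sub_nonneg.2 (pow_le_pow_left₀ hα0.le hab.le K)
  set D := β ^ (K + 1) - α ^ (K + 1) with hD
  set d := β ^ K - α ^ K with hd
  have hDb : D ≤ 4 * ε / α := by
    have e1 : α * D ≤ 2 * ε + D := by
      have : α * (D - d) ≤ α * (2 * (ε / α)) := mul_le_mul_of_nonneg_left F3 hα0.le
      have e2 : α * (2 * (ε / α)) = 2 * ε := by field_simp
      nlinarith
    rw [le_div_iff₀ hα0]
    have hD0 : 0 ≤ D := by nlinarith
    nlinarith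
  refine ⟨F1, hDb, ?_, ?_⟩
  · intro m h1 h2
    have h3 := d_mono α β (by linarith) hab.le (m := m) (n := K) (by omega)
    have h4 : d ≤ D / α := by rw [le_div_iff₀ hα0]; linarith
    have h5 : D / α ≤ 4 * ε / α ^ 2 := by
      rw [pow_two, ← div_div]
      exact div_le_div_of_nonneg_right hDb hα0.le
    linarith
  · have hb := bern α β hα0.le hab.le (K + 1)
    have hβ1 : β ≤ α + 1 := by
      have h1 := F1 1 le_rfl (by omega)
      simp only [pow_one] at h1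
      have h2 := Int.fract_lt_one β
      have h3 := Int.fract_nonneg α
      linarith
    have hNpos : (0 : ℝ) < ((K + 1 : ℕ) : ℝ) := by positivity
    have hD0 : 0 ≤ D := by nlinarith
    have e1 : β ^ (K + 1 + 1) - α ^ (K + 1 + 1) = β * D + (β - α) * α ^ (K + 1) := by
      rw [hD]; ring
    have e2 : (β - α) * α ^ (K + 1) ≤ α * D * (1 / ((K + 1 : ℕ) : ℝ)) := by
      rw [mul_one_div, le_div_iff₀ hNpos]
      calc (β - α) * α ^ (K + 1) * ((K + 1 : ℕ) : ℝ) = ((K + 1 : ℕ) : ℝ) * (β - α) * α ^ (K + 1) := by ring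
        _ ≤ _ := hb
    rw [e1]
    have e3 : β * D ≤ (α + 1) * D := mul_le_mul_of_nonneg_right hβ1 hD0
    have e4 : α * D * (1 / ((K + 1 : ℕ) : ℝ)) ≤ (α + 1) * D * (1 / ((K + 1 : ℕ) : ℝ)) := by
      apply mul_le_mul_of_nonneg_right _ (by positivity)
      nlinarith
    calc β * D + (β - α) * α ^ (K + 1) ≤ (α + 1) * D + (α + 1) * D * (1 / ((K + 1 : ℕ) : ℝ)) := by
          linarith
      _ = (α + 1) * (1 + 1 / ((K + 1 : ℕ) : ℝ)) * D := by ring

theorem child {ε α β : ℝ} (he0 : 0 < ε) (he1 : ε < 1) (hα : 40 / (1 - ε) ≤ α) (hab : α < β)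
    (ca : Conf ε α) (cb : Conf ε β) {N : ℕ} (hN : 2 ≤ N)
    (hag : ∀ m, 1 ≤ m → m ≤ N → ⌊α ^ m⌋ = ⌊β ^ m⌋) :
    |⌊β ^ (N + 1)⌋ - ⌊α ^ (N + 1)⌋| ≤ 8 := by
  obtain ⟨F1, F2, F3, F4⟩ := basic he0 he1 hα hab ca cb hN hag
  have hg : 0 < 1 - ε := by linarith
  have hα40 : 40 ≤ α := by
    have : (40 : ℝ) ≤ 40 / (1 - ε) := by
      rw [le_div_iff₀ hg]; linarith
    linarith
  have hα0 : 0 < α := by linarith
  have hN' : 1 / (N : ℝ) ≤ 1 / 2 := by
    apply one_div_le_one_div_of_le (by norm_num)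
    exact_mod_cast hN
  have hD0 : 0 ≤ β ^ N - α ^ N := sub_nonneg.2 (pow_le_pow_left₀ hα0.le hab.le N)
  have h1 : β ^ (N + 1) - α ^ (N + 1) ≤ 7 := by
    calc β ^ (N + 1) - α ^ (N + 1) ≤ (α + 1) * (1 + 1 / (N : ℝ)) * (β ^ N - α ^ N) := F4
      _ ≤ (α + 1) * (1 + 1 / 2) * (4 * ε / α) := by
          apply mul_le_mul _ F2 hD0 (by positivity)
          apply mul_le_mul_of_nonneg_left _ (by linarith)
          linarith
      _ = (α + 1) * 6 * ε / α := by ring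
      _ ≤ 7 := by
          rw [div_le_iff₀ hα0]
          nlinarith
  have h2 : 0 ≤ β ^ (N + 1) - α ^ (N + 1) :=
    sub_nonneg.2 (pow_le_pow_left₀ hα0.le hab.le _)
  have h3 : ⌊α ^ (N + 1)⌋ ≤ ⌊β ^ (N + 1)⌋ := Int.floor_mono (by linarith)
  have h4 : ⌊β ^ (N + 1)⌋ ≤ ⌊α ^ (N + 1)⌋ + 8 := by
    have h5 := Int.floor_le (β ^ (N + 1))
    have h6 := Int.lt_floor_add_one (α ^ (N + 1))
    have h7 : ((⌊β ^ (N + 1)⌋ : ℤ) : ℝ) < ((⌊α ^ (N + 1)⌋ + 8 : ℤ) : ℝ) := by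
      push_cast; linarith
    have := Int.cast_lt.1 h7
    omega
  rw [abs_of_nonneg (by omega)]
  omega

theorem split {ε α β : ℝ} (he0 : 0 < ε) (he1 : ε < 1) (hα : 40 / (1 - ε) ≤ α) (hab : α < β)
    (ca : Conf ε α) (cb : Conf ε β) {N : ℕ} (hN : 8 / (1 - ε) ≤ (N : ℝ))
    (hag : ∀ m, 1 ≤ m → m ≤ N → ⌊α ^ m⌋ = ⌊β ^ m⌋) (hne : ⌊α ^ (N + 1)⌋ ≠ ⌊β ^ (N + 1)⌋) :
    ∀ m, 1 ≤ m → m < N →
      Int.fract (α ^ N) ≤ Int.fract (α ^ m) - (1 - ε) / (2 * α) ∧
      Int.fract (β ^ m) + (1 - ε) / (2 * β) ≤ Int.fract (β ^ N) := by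
  have hg : 0 < 1 - ε := by linarith
  have hN8 : (8 : ℝ) ≤ (N : ℝ) := by
    have : (8 : ℝ) ≤ 8 / (1 - ε) := by
      rw [le_div_iff₀ hg]; linarith
    linarith
  have hN2 : 2 ≤ N := by
    have : (8 : ℕ) ≤ N := by exact_mod_cast hN8
    omega
  obtain ⟨F1, F2, F3, F4⟩ := basic he0 he1 hα hab ca cb hN2 hag
  have hα40 : 40 ≤ α := by
    have : (40 : ℝ) ≤ 40 / (1 - ε) := by
      rw [le_div_iff₀ hg]; linarith
    linarith
  have hα0 : 0 < α := by linarith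
  have hβ0 : 0 < β := by linarith
  have hβ : ε / β ≤ ε / α := div_le_div_of_nonneg_left he0.le hα0 hab.le
  have hD0 : 0 ≤ β ^ N - α ^ N := sub_nonneg.2 (pow_le_pow_left₀ hα0.le hab.le N)
  set D := β ^ N - α ^ N with hD
  -- lower bound for the next difference
  have G1 : 1 - 2 * (ε / α) ≤ β ^ (N + 1) - α ^ (N + 1) := by
    have h3 : ⌊α ^ (N + 1)⌋ ≤ ⌊β ^ (N + 1)⌋ :=
      Int.floor_mono (pow_le_pow_left₀ hα0.le hab.le _)
    have h4 : ⌊α ^ (N + 1)⌋ + 1 ≤ ⌊β ^ (N + 1)⌋ := by omega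
    have h5 : ((⌊α ^ (N + 1)⌋ : ℤ) : ℝ) + 1 ≤ ((⌊β ^ (N + 1)⌋ : ℤ) : ℝ) := by exact_mod_cast h4
    have h6 := Int.floor_add_fract (α ^ (N + 1))
    have h7 := Int.floor_add_fract (β ^ (N + 1))
    have h8 := conf_diff cb (m := N) (n := N + 1) (by omega) (by omega)
    have h9 := conf_diff ca (m := N + 1) (n := N) (by omega) (by omega)
    have h10 := F1 N (by omega) le_rfl
    linarith
  have G2 : (1 + ε) / 2 + 4 * ε / α ≤ α * D := by
    have ha : 1 / α ≤ (1 - ε) / 40 := by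
      rw [div_le_div_iff₀ hα0 (by norm_num)]
      have := (div_le_iff₀ hg).1 hα
      linarith
    have hNpos : (0 : ℝ) < (N : ℝ) := by linarith
    have hb : 1 / (N : ℝ) ≤ (1 - ε) / 8 := by
      rw [div_le_div_iff₀ hNpos (by norm_num)]
      have := (div_le_iff₀ hg).1 hN
      linarith
    set a := 1 / α with hadef
    set b := 1 / (N : ℝ) with hbdef
    have ha0 : 0 < a := by positivity
    have hb0 : 0 < b := by positivity
    have e0 : ε / α = ε * a := by rw [hadef]; ring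
    have e0' : 4 * ε / α = 4 * ε * a := by rw [hadef]; ring
    have e1 : 1 - 2 * (ε * a) ≤ (1 + a) * (1 + b) * (α * D) := by
      have h1 := le_trans G1 F4
      rw [e0] at h1
      have h2 : (α + 1) * (1 + b) * D = (1 + a) * (1 + b) * (α * D) := by
        have : α * a = 1 := by rw [hadef]; field_simp
        calc (α + 1) * (1 + b) * D = (α + α * a) * (1 + b) * D := by rw [this]
          _ = _ := by ring
      linarith
    rw [e0']
    -- (1 + ε)/2 + 4 ε a ≤ α D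
    by_contra hcon
    push Not at hcon
    have h3 : (1 + a) * (1 + b) * (α * D) < (1 + a) * (1 + b) * ((1 + ε) / 2 + 4 * ε * a) :=
      mul_lt_mul_of_pos_left hcon (by positivity)
    have h4 : (1 + a) * (1 + b) ≤ 1 + 0.16 * (1 - ε) := by
      have : (1 + a) * (1 + b) ≤ (1 + (1 - ε) / 40) * (1 + (1 - ε) / 8) := by
        apply mul_le_mul (by linarith) (by linarith) (by positivity) (by linarith)
      nlinarith
    have h5 : (1 + ε) / 2 + 4 * ε * a ≤ 1 - 0.4 * (1 - ε) := by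
      nlinarith
    have h6 : (1 + a) * (1 + b) * ((1 + ε) / 2 + 4 * ε * a) ≤
        (1 + 0.16 * (1 - ε)) * (1 - 0.4 * (1 - ε)) := by
      apply mul_le_mul h4 h5 (by positivity) (by nlinarith)
    have h7 : 1 - 2 * (ε * a) ≥ 1 - 0.05 * (1 - ε) := by nlinarith
    nlinarith
  have G3 : ε / α + 4 * ε / α ^ 2 + (1 - ε) / (2 * α) ≤ D := by
    have e1 : ε / α + 4 * ε / α ^ 2 + (1 - ε) / (2 * α) = ((1 + ε) / 2 + 4 * ε / α) / α := by
      field_simp; ring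
    rw [e1, div_le_iff₀ hα0]
    linarith
  intro m hm1 hm2
  have h1 := F1 N (by omega) le_rfl
  have h2 := F1 m hm1 hm2.le
  have h3 := F3 m hm1 hm2
  have h4 := conf_diff cb (m := N) (n := m) (by omega) hm1
  have h5 := conf_diff ca (m := m) (n := N) hm1 (by omega)
  have h6 : (1 - ε) / (2 * β) ≤ (1 - ε) / (2 * α) :=
    div_le_div_of_nonneg_left hg.le (by positivity) (by linarith)
  constructor
  · linarith
  · linarith

end Pool.Agent.Helper69.CN
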